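import Pool.Agent.U180.DP.Stm

/-! Project DP, package DENS: the mean number of displaced primes in a short interval -/

set_option autoImplicit false

open Filter Topology

namespace Pool.Agent.U890.DP

open Pool.Agent.U180.DP

theorem f_mono {A s t : ℝ} (hA : 0 < A) (hs : Real.exp A ≤ s) (hst : s ≤ t) :
    s / Real.log s ^ A ≤ t / Real.log t ^ A := by
  have hs0 : 0 < s := lt_of_lt_of_le (Real.exp_pos A) hs
  have ht0 : 0 < t := lt_of_lt_of_le hs0 hst
  have hls : A ≤ Real.log s := (Real.le_log_iff_exp_le hs0).2 hs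
  have hls0 : 0 < Real.log s := lt_of_lt_of_le hA hls
  have hlt : Real.log s ≤ Real.log t := Real.log_le_log hs0 hst
  have hlt0 : 0 < Real.log t := lt_of_lt_of_le hls0 hlt
  rw [div_le_div_iff₀ (Real.rpow_pos_of_pos hls0 A) (Real.rpow_pos_of_pos hlt0 A)]
  obtain ⟨u, hu⟩ : ∃ u, u = Real.log t - Real.log s := ⟨_, rfl⟩
  have hu0 : 0 ≤ u := by rw [hu]; linarith
  have h1 : Real.log t = Real.log s * (1 + u / Real.log s) := by
    rw [mul_add, mul_div_cancel₀ _ hls0.ne', hu]; ring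
  have h2 : Real.log t ^ A ≤ Real.log s ^ A * (t / s) := by
    rw [h1, Real.mul_rpow hls0.le (by positivity)]
    refine mul_le_mul_of_nonneg_left ?_ (Real.rpow_nonneg hls0.le A)
    have h3 : 1 + u / Real.log s ≤ Real.exp (u / Real.log s) := by
      linarith [Real.add_one_le_exp (u / Real.log s)]
    calc (1 + u / Real.log s) ^ A ≤ Real.exp (u / Real.log s) ^ A :=
          Real.rpow_le_rpow (by positivity) h3 hA.le
      _ = Real.exp (u / Real.log s * A) := by rw [← Real.exp_mul]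
      _ ≤ Real.exp u := by
        apply Real.exp_le_exp.2
        rw [div_mul_eq_mul_div, div_le_iff₀ hls0]
        exact mul_le_mul_of_nonneg_left hls hu0
      _ = t / s := by rw [hu, Real.exp_sub, Real.exp_log ht0, Real.exp_log hs0]
  calc s * Real.log t ^ A ≤ s * (Real.log s ^ A * (t / s)) := mul_le_mul_of_nonneg_left h2 hs0.le
    _ = t * Real.log s ^ A := by field_simp

theorem amp_nonneg (A : ℝ) (p : ℕ) : 0 ≤ amp A p :=
  div_nonneg (Nat.cast_nonneg p) (Real.rpow_nonneg (Real.log_natCast_nonneg p) A)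

theorem amp_pos (A : ℝ) {p : ℕ} (hp : 2 ≤ p) : 0 < amp A p := by
  have h1 : (1 : ℝ) < p := by exact_mod_cast hp
  exact div_pos (by linarith) (Real.rpow_pos_of_pos (Real.log_pos h1) A)

theorem prb_nonneg (A x y : ℝ) (p : ℕ) : 0 ≤ prb A x y p :=
  div_nonneg (le_max_left _ _) (amp_nonneg A p)

theorem prb_le (A x y : ℝ) {p : ℕ} (_hp : 2 ≤ p) (hy : 0 ≤ y) {c : ℝ} (hc : 0 < c)
    (h : c ≤ amp A p) : prb A x y p ≤ y / c := by
  unfold prb
  refine div_le_div₀ hy (max_le hy ?_) hc h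
  have h1 := min_le_right ((p : ℝ) + amp A p) (x + y)
  have h2 := le_max_right (p : ℝ) x
  linarith

theorem prb_zero (A x y : ℝ) {p : ℕ} (h : (p : ℝ) + amp A p ≤ x) : prb A x y p = 0 := by
  unfold prb
  have h1 := min_le_left ((p : ℝ) + amp A p) (x + y)
  have h2 := le_max_right (p : ℝ) x
  rw [max_eq_left (by linarith), zero_div]

theorem prb_full (A x y : ℝ) {p : ℕ} (hp : 2 ≤ p) (hy : 0 ≤ y) (hpx : (p : ℝ) ≤ x)
    (h : x + y ≤ (p : ℝ) + amp A p) {c : ℝ} (hc : amp A p ≤ c) : y / c ≤ prb A x y p := by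
  unfold prb
  rw [min_eq_right h, max_eq_right hpx, add_sub_cancel_left, max_eq_right hy]
  exact div_le_div_of_nonneg_left hy (amp_pos A hp) hc

/-- the sizes which are needed -/
theorem large {A B e C : ℝ} (hA : 0 < A) (_hB : 0 < B) (he : 0 < e) : ∀ᶠ x : ℝ in atTop,
    2 ≤ Real.log x ∧ 2 ≤ e * Real.log x ^ A ∧ 2 * Real.exp A ≤ x ∧ C ≤ x ∧ 4 ≤ x ∧
      2 * Real.log x ^ (A + B + 1) ≤ e * x := by
  have h1 : ∀ᶠ x : ℝ in atTop, 2 ≤ Real.log x := Real.tendsto_log_atTop.eventually_ge_atTop 2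
  have h2 : ∀ᶠ x : ℝ in atTop, 2 / e ≤ Real.log x ^ A :=
    ((tendsto_rpow_atTop hA).comp Real.tendsto_log_atTop).eventually_ge_atTop (2 / e)
  have h3 := (isLittleO_log_rpow_rpow_atTop (A + B + 1) (zero_lt_one)).bound (half_pos he)
  filter_upwards [h1, h2, eventually_ge_atTop (2 * Real.exp A), eventually_ge_atTop C,
    eventually_ge_atTop 4, h3] with x h1 h2 h3 h4 h5 h6
  refine ⟨h1, ?_, h3, h4, h5, ?_⟩
  · rw [div_le_iff₀ he] at h2
    linarith
  · rw [Real.rpow_one, Real.norm_of_nonneg (by linarith : (0 : ℝ) ≤ x),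
      Real.norm_of_nonneg (Real.rpow_nonneg (by linarith) _)] at h6
    linarith

theorem t_DENS (h : S_PI) : S_DENS := by
  intro A B ε hA hB hε
  obtain ⟨e, he⟩ : ∃ e, e = min ε 1 / 4 := ⟨_, rfl⟩
  have he0 : 0 < e := by rw [he]; exact div_pos (lt_min hε one_pos) (by norm_num)
  have he1 : 4 * e ≤ 1 := by rw [he]; linarith [min_le_right ε 1]
  have heε : 4 * e ≤ ε := by rw [he]; linarith [min_le_left ε 1]
  obtain ⟨X₁, hX₁⟩ := h (A + 1) e (by linarith) he0
  obtain ⟨N, hN⟩ : ∃ N : ℕ, Real.exp A ≤ N := exists_nat_ge _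
  obtain ⟨C, hC⟩ : ∃ C : ℝ, ∀ p : ℕ, p < N → (p : ℝ) + amp A p ≤ C := by
    refine ⟨∑ p ∈ Finset.range N, ((p : ℝ) + amp A p), fun p hp => ?_⟩
    exact Finset.single_le_sum (f := fun p : ℕ => (p : ℝ) + amp A p)
      (fun q _ => add_nonneg (Nat.cast_nonneg q) (amp_nonneg A q)) (Finset.mem_range.2 hp)
  obtain ⟨X₂, hX₂⟩ := eventually_atTop.1 (large (C := max C X₁) hA hB he0)
  refine ⟨X₂, fun x y hx hy hyB => ?_⟩
  obtain ⟨l1, l2, l3, l4, l5, l6⟩ := hX₂ x hx
  have lC : C ≤ x := le_trans (le_max_left _ _) l4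
  have lX : X₁ ≤ x := le_trans (le_max_right _ _) l4
  have hx0 : 0 < x := by linarith
  have hL0 : 0 < Real.log x := by linarith
  obtain ⟨L, hL⟩ : ∃ L, L = Real.log x := ⟨_, rfl⟩
  rw [← hL] at l1 l2 l6 hL0 hyB ⊢
  have hLA : 0 < L ^ A := Real.rpow_pos_of_pos hL0 A
  obtain ⟨hh, hhd⟩ : ∃ hh, hh = x / L ^ A := ⟨_, rfl⟩
  have hh0 : 0 < hh := by rw [hhd]; exact div_pos hx0 hLA
  have hhx : hh * L ^ A = x := by rw [hhd]; exact div_mul_cancel₀ _ hLA.ne'
  -- `hh ≤ (e / 2) x`
  have hh1 : hh ≤ e / 2 * x := by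
    have : hh * 2 ≤ hh * (e * L ^ A) := mul_le_mul_of_nonneg_left l2 hh0.le
    have h2 : hh * (e * L ^ A) = e * x := by rw [← hhx]; ring
    linarith
  have hh2 : hh ≤ x / 2 := by nlinarith
  -- `(y + 1) L ≤ e hh`
  have hy1 : (y + 1) * L ≤ e * hh := by
    have h1 : 1 ≤ L ^ B := Real.one_le_rpow (by linarith) hB.le
    have h2 : (y + 1) * L ≤ 2 * L ^ (B + 1) := by
      rw [Real.rpow_add hL0, Real.rpow_one]
      have : y + 1 ≤ 2 * L ^ B := by linarith
      nlinarith
    have h3 : L ^ (A + B + 1) = L ^ A * L ^ (B + 1) := by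
      rw [← Real.rpow_add hL0]; congr 1; ring
    rw [h3] at l6
    have h4 : 2 * L ^ (B + 1) ≤ e * hh := by
      refine le_of_mul_le_mul_right ?_ hLA
      calc 2 * L ^ (B + 1) * L ^ A = 2 * (L ^ A * L ^ (B + 1)) := by ring
        _ ≤ e * x := l6
        _ = e * hh * L ^ A := by rw [← hhx]; ring
    linarith
  have hy2 : 2 * y ≤ e * hh := by nlinarith
  -- large `p`
  have hbig : ∀ p : ℕ, x - hh < p → Real.exp A ≤ p := by
    intro p hp
    have : x / 2 < p := by linarith
    linarith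
  have hge2 : ∀ p : ℕ, p.Prime → 2 ≤ p := fun p hp => hp.two_le
  -- `amp` for `p ≤ x`
  have hampx : ∀ p : ℕ, Real.exp A ≤ p → (p : ℝ) ≤ x → amp A p ≤ hh := by
    intro p hp hpx
    have := f_mono hA hp hpx
    rw [← hL, ← hhd] at this
    exact this
  have hampx' : ∀ p : ℕ, Real.exp A ≤ p → x ≤ (p : ℝ) → hh ≤ amp A p := by
    intro p hp hpx
    have := f_mono hA (by linarith : Real.exp A ≤ x) hpx
    rw [← hL, ← hhd] at this
    exact this
  have hamplo : ∀ p : ℕ, x - hh < p → (p : ℝ) ≤ x → (1 - e / 2) * hh ≤ amp A p := by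
    intro p hp hpx
    have hp0 : 0 < (p : ℝ) := lt_of_lt_of_le (Real.exp_pos A) (hbig p hp)
    have hlp : 0 < Real.log p := by
      refine Real.log_pos ?_
      have := Real.add_one_le_exp A
      have h2 := hbig p hp
      linarith
    have h1 : Real.log p ≤ L := by rw [hL]; exact Real.log_le_log hp0 hpx
    have h2 : Real.log p ^ A ≤ L ^ A := Real.rpow_le_rpow hlp.le h1 hA.le
    have h3 : (p : ℝ) / L ^ A ≤ amp A p :=
      div_le_div_of_nonneg_left hp0.le (Real.rpow_pos_of_pos hlp A) h2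
    refine le_trans ?_ h3
    rw [le_div_iff₀ hLA]
    have h4 : (1 - e / 2) * hh * L ^ A = (1 - e / 2) * x := by rw [mul_assoc, hhx]
    rw [h4]
    linarith
  have hzero : ∀ p : ℕ, (p : ℝ) ≤ x - hh → prb A x y p = 0 := by
    intro p hp
    refine prb_zero A x y ?_
    by_cases hpN : p < N
    · exact le_trans (hC p hpN) lC
    · have h1 : (N : ℝ) ≤ p := by exact_mod_cast not_lt.1 hpN
      have h2 := hampx p (hN.trans h1) (by linarith)
      linarith
  have hc0 : 0 < (1 - e / 2) * hh := mul_pos (by linarith) hh0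
  constructor
  · -- the counts
    have hz1 : x / Real.log x ^ (A + 1) ≤ (1 - e) * hh := by
      rw [← hL, Real.rpow_add hL0, Real.rpow_one, ← div_div, ← hhd, div_le_iff₀ hL0]
      have : 1 ≤ (1 - e) * L := by nlinarith
      nlinarith
    have hz2 : x / Real.log x ^ (A + 1) ≤ hh := hz1.trans (by nlinarith)
    have hcnt1 := hX₁ x ((1 - e) * hh) lX hz1 (by nlinarith)
    have hcnt2 := hX₁ x hh lX hz2 hh2
    rw [← hL] at hcnt1 hcnt2
    obtain ⟨F₁, hF₁⟩ : ∃ F, F = (Finset.range (⌊x⌋₊ + 1)).filter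
      fun p : ℕ => p.Prime ∧ x - (1 - e) * hh < p := ⟨_, rfl⟩
    obtain ⟨F₂, hF₂⟩ : ∃ F, F = (Finset.range (⌊x⌋₊ + 1)).filter
      fun p : ℕ => p.Prime ∧ x - hh < p := ⟨_, rfl⟩
    rw [← hF₁] at hcnt1
    rw [← hF₂] at hcnt2
    have hmem : ∀ p : ℕ, p ∈ Finset.range (⌊x⌋₊ + 1) ↔ (p : ℝ) ≤ x := by
      intro p
      rw [Finset.mem_range, Nat.lt_succ_iff, Nat.le_floor_iff hx0.le]
    have hmemy : ∀ p : ℕ, p ∈ prm (x + y) ↔ (p : ℝ) ≤ x + y ∧ p.Prime := by
      intro p
      unfold prm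
      rw [Finset.mem_filter, Finset.mem_range, Nat.lt_succ_iff, Nat.le_floor_iff (by linarith)]
    -- lower bound
    have hlow : (1 - e) ^ 2 * (y / L) ≤ ∑ p ∈ prm (x + y), prb A x y p := by
      have h1 : ∑ p ∈ F₁, prb A x y p ≤ ∑ p ∈ prm (x + y), prb A x y p := by
        refine Finset.sum_le_sum_of_subset_of_nonneg ?_ (fun p _ _ => prb_nonneg A x y p)
        intro p hp
        rw [hF₁, Finset.mem_filter, hmem] at hp
        rw [hmemy]
        exact ⟨by linarith [hp.1], hp.2.1⟩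
      have h2 : (F₁.card : ℝ) * (y / hh) ≤ ∑ p ∈ F₁, prb A x y p := by
        rw [← nsmul_eq_mul]
        refine Finset.card_nsmul_le_sum _ _ _ ?_
        intro p hp
        rw [hF₁, Finset.mem_filter, hmem] at hp
        obtain ⟨hpx, hpp, hpl⟩ := hp
        have hpl' : x - hh < p := by nlinarith
        refine prb_full A x y (hge2 p hpp) hy.le hpx ?_ (hampx p (hbig p hpl') hpx)
        have := hamplo p hpl' hpx
        nlinarith
      have h3 : (1 - e) * ((1 - e) * hh / L) ≤ F₁.card := by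
        have := (abs_le.1 hcnt1).1
        linarith
      calc (1 - e) ^ 2 * (y / L) = (1 - e) * ((1 - e) * hh / L) * (y / hh) := by
            field_simp
        _ ≤ F₁.card * (y / hh) := mul_le_mul_of_nonneg_right h3 (by positivity)
        _ ≤ _ := h2.trans h1
    -- upper bound
    have hup : ∑ p ∈ prm (x + y), prb A x y p ≤ (1 + 3 * e) * (y / L) := by
      rw [← Finset.sum_filter_add_sum_filter_not (prm (x + y)) (fun p : ℕ => (p : ℝ) ≤ x)]
      have h1 : ∑ p ∈ (prm (x + y)).filter (fun p : ℕ => (p : ℝ) ≤ x), prb A x y p =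
          ∑ p ∈ F₂, prb A x y p := by
        symm
        refine Finset.sum_subset ?_ ?_
        · intro p hp
          rw [hF₂, Finset.mem_filter, hmem] at hp
          rw [Finset.mem_filter, hmemy]
          exact ⟨⟨by linarith [hp.1], hp.2.1⟩, hp.1⟩
        · intro p hp hp'
          rw [Finset.mem_filter, hmemy] at hp
          rw [hF₂, Finset.mem_filter, hmem] at hp'
          refine hzero p ?_
          by_contra hlt
          exact hp' ⟨hp.2, hp.1.2, not_le.1 hlt⟩
      have h2 : ∑ p ∈ F₂, prb A x y p ≤ F₂.card * (y / ((1 - e / 2) * hh)) := by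
        rw [← nsmul_eq_mul]
        refine Finset.sum_le_card_nsmul _ _ _ ?_
        intro p hp
        rw [hF₂, Finset.mem_filter, hmem] at hp
        obtain ⟨hpx, hpp, hpl⟩ := hp
        exact prb_le A x y (hge2 p hpp) hy.le hc0 (hamplo p hpl hpx)
      have h3 : (F₂.card : ℝ) ≤ (1 + e) * (hh / L) := by
        have := (abs_le.1 hcnt2).2
        linarith
      have h4 : ∑ p ∈ (prm (x + y)).filter (fun p : ℕ => ¬ (p : ℝ) ≤ x), prb A x y p ≤
          ((prm (x + y)).filter (fun p : ℕ => ¬ (p : ℝ) ≤ x)).card * (y / hh) := by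
        rw [← nsmul_eq_mul]
        refine Finset.sum_le_card_nsmul _ _ _ ?_
        intro p hp
        rw [Finset.mem_filter, hmemy, not_le] at hp
        have h5 : Real.exp A ≤ p := by linarith [hp.2]
        exact prb_le A x y (hge2 p hp.1.2) hy.le hh0 (hampx' p h5 hp.2.le)
      have h5 : (((prm (x + y)).filter (fun p : ℕ => ¬ (p : ℝ) ≤ x)).card : ℝ) ≤ y + 1 := by
        have h6 : (prm (x + y)).filter (fun p : ℕ => ¬ (p : ℝ) ≤ x) ⊆ Finset.Ioc ⌊x⌋₊ ⌊x + y⌋₊ := by
          intro p hp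
          rw [Finset.mem_filter, hmemy, not_le] at hp
          rw [Finset.mem_Ioc]
          refine ⟨?_, Nat.le_floor hp.1.1⟩
          exact (Nat.floor_lt hx0.le).2 hp.2
        have h7 := Finset.card_le_card h6
        rw [Nat.card_Ioc] at h7
        have h8 : (((prm (x + y)).filter (fun p : ℕ => ¬ (p : ℝ) ≤ x)).card : ℝ) ≤
            ((⌊x + y⌋₊ - ⌊x⌋₊ : ℕ) : ℝ) := by exact_mod_cast h7
        rw [Nat.cast_sub (Nat.floor_mono (by linarith))] at h8
        have h9 := Nat.floor_le (by linarith : (0 : ℝ) ≤ x + y)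
        have h10 := Nat.lt_floor_add_one x
        linarith
      have hyh : 0 ≤ y / hh := by positivity
      have h6 : (F₂.card : ℝ) * (y / ((1 - e / 2) * hh)) ≤ (1 + 2 * e) * (y / L) := by
        calc (F₂.card : ℝ) * (y / ((1 - e / 2) * hh)) ≤
              (1 + e) * (hh / L) * (y / ((1 - e / 2) * hh)) :=
              mul_le_mul_of_nonneg_right h3 (by positivity)
          _ = (1 + e) / (1 - e / 2) * (y / L) := by
              have : (1 - e / 2) ≠ 0 := by linarith
              field_simp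
          _ ≤ (1 + 2 * e) * (y / L) := by
              refine mul_le_mul_of_nonneg_right ?_ (by positivity)
              rw [div_le_iff₀ (by linarith)]
              nlinarith
      have h7 : (((prm (x + y)).filter (fun p : ℕ => ¬ (p : ℝ) ≤ x)).card : ℝ) * (y / hh) ≤
          e * (y / L) := by
        calc (((prm (x + y)).filter (fun p : ℕ => ¬ (p : ℝ) ≤ x)).card : ℝ) * (y / hh) ≤
              (y + 1) * (y / hh) := mul_le_mul_of_nonneg_right h5 hyh
          _ = ((y + 1) * L) * (y / (hh * L)) := by field_simp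
          _ ≤ (e * hh) * (y / (hh * L)) := mul_le_mul_of_nonneg_right hy1 (by positivity)
          _ = e * (y / L) := by field_simp
      rw [h1]
      linarith
    have hyL : 0 < y / L := div_pos hy hL0
    rw [abs_le]
    constructor
    · have : (1 - 2 * e) * (y / L) ≤ (1 - e) ^ 2 * (y / L) :=
        mul_le_mul_of_nonneg_right (by nlinarith) hyL.le
      nlinarith
    · nlinarith
  · intro p hp
    refine ⟨prb_nonneg A x y p, ?_⟩
    unfold prm at hp
    rw [Finset.mem_filter] at hp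
    by_cases hlt : (p : ℝ) ≤ x - hh
    · rw [hzero p hlt]
      exact hε.le
    · rw [not_le] at hlt
      have h1 : (1 - e / 2) * hh ≤ amp A p := by
        rcases le_total (p : ℝ) x with hpx | hpx
        · exact hamplo p hlt hpx
        · exact le_trans (by nlinarith) (hampx' p (hbig p hlt) hpx)
      refine (prb_le A x y (hge2 p hp.2) hy.le hc0 h1).trans ?_
      rw [div_le_iff₀ hc0]
      have h2 : hh / 2 ≤ (1 - e / 2) * hh := by nlinarith
      have h3 : e * hh ≤ ε * (2 * ((1 - e / 2) * hh)) := by nlinarith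
      nlinarith

end Pool.Agent.U890.DP
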